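import Pool.Agent.H509.Fin

/-!
# MP_dd9835_nt: the `p`-part of Rubin's conjecture for all `S' ⊇ S` and all `T` is one of its cases

Let `H / F` be a finite abelian extension of number fields with group `G`, `S` a finite set of
places of `F` which contains the archimedean and the ramified ones, `v_1, ..., v_r` the places of
`S` which split completely, `#S ≥ r + 1` (`RubinData`), and `p` a prime number such that `H` does not
contain the `p`-th roots of unity. `D.RubinAt p T` is the part at `p` of the statement of Q1 for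
`H / F`, `S`, `T` (`ψ (u) ∈ ℤ_(p)[G]` in place of `ψ (u) ∈ ℤ[G]`).

**Theorem.** Let `V` be a finite set of prime ideals of `F` outside `S` which split completely in
`H`, such that the prime ideals of `H` over `S ∪ V` generate the `p`-part of the class group of `H`,
and let `t` be a prime ideal outside `S ∪ V` which splits completely in `H`, with `N t` not congruent
to `1` modulo `p` and of residue characteristic `> [F : ℚ] + 1`. Then the single statement
`RubinAt p` for `S ∪ V` and `T = {t}` is equivalent to `RubinAt p` for all finite `S' ⊇ S` and all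
finite `T` disjoint from `S'` (all ranks occur here). There is a set `V` which works for all `p`, and
there are infinitely many `t` for each `p`.

So for given `H / F`, `S` and `p` the conjecture at `p` for all `S'` and `T` is decided by one element
of one lattice.
-/

set_option autoImplicit false

open NumberField IsDedekindDomain

noncomputable section

namespace Pool.Agent.Results.MP_dd9835_nt.OnePairDecidesAll

open Pool.Agent.K3h30.RS Pool.Agent.H509

open Classical in
/-- The part at `p` of Rubin's conjecture for all `S' ⊇ S` and all `T` is equivalent to its case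
`S ∪ V`, `{t}`. -/
theorem result {F H G : Type} [Field F] [NumberField F] [Field H] [NumberField H] [Algebra F H]
    [CommGroup G] [Finite G] [MulSemiringAction G H] [IsGaloisGroup G F H]
    (D : RubinData F H G) :
    (∃ V : Finset (HeightOneSpectrum (𝓞 F)), SplitOutside D ∅ V ∧
      ∀ (p : ℕ) (hp : p.Prime), Generates H (notDvd p hp)
        ((D.S ∪ V : Finset (HeightOneSpectrum (𝓞 F))) : Set (HeightOneSpectrum (𝓞 F))) ∅) ∧
    ∀ (p : ℕ) (hp : p.Prime), (¬ ∃ ζ : H, ζ ^ p = 1 ∧ ζ ≠ 1) →
      (∀ bad : Finset (HeightOneSpectrum (𝓞 F)), ∃ t, Useful D p t ∧ t ∉ bad) ∧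
      ∀ (V : Finset (HeightOneSpectrum (𝓞 F))) (t : HeightOneSpectrum (𝓞 F)),
        SplitOutside D ∅ V →
        Generates H (notDvd p hp)
          ((D.S ∪ V : Finset (HeightOneSpectrum (𝓞 F))) : Set (HeightOneSpectrum (𝓞 F))) ∅ →
        Useful D p t → t ∉ V →
        (∃ D₁ : RubinData F H G, D₁.S = D.S ∪ V) ∧
        ∀ D₁ : RubinData F H G, D₁.S = D.S ∪ V → D₁.Allowed {t} ∧
          (D₁.RubinAt p {t} ↔ ∀ D' : RubinData F H G, D.S ⊆ D'.S →
            ∀ T : Finset (HeightOneSpectrum (𝓞 F)), Disjoint D'.S T → D'.RubinAt p T) := by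
  refine ⟨?_, fun p hp hz => ⟨fun bad => exists_useful D hp hz bad, fun V t hV hgen ht htV =>
    ⟨exists_data D V, fun D₁ hD₁ => ?_⟩⟩⟩
  · obtain ⟨V, hV, hgen⟩ := exists_V' D ∅ ∅
    refine ⟨V, fun v hv => ⟨(hV v hv).1, (hV v hv).2.2.1, (hV v hv).2.2.2⟩, fun p hp => ?_⟩
    intro Q hQV hQT
    have hle : (V : Set (HeightOneSpectrum (𝓞 F))) ⊆
        ((D.S ∪ V : Finset (HeightOneSpectrum (𝓞 F))) : Set (HeightOneSpectrum (𝓞 F))) :=
      Finset.coe_subset.2 Finset.subset_union_right
    obtain ⟨n, hn, hn0, x, h1, h2, h3⟩ := hgen.mono hle Q hQV (by simpa using hQT)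
    rw [Submonoid.mem_bot] at hn
    refine ⟨n, ?_, hn0, x, h1, h2, by simpa using h3⟩
    rw [hn]
    exact one_mem _
  · have htS : t ∉ D₁.S := by
      rw [hD₁, Finset.mem_union, not_or]
      exact ⟨ht.1, htV⟩
    refine ⟨⟨Finset.disjoint_singleton_right.2 htS,
      Or.inr ⟨t, Finset.mem_singleton_self t, ht.2.2.2⟩⟩, ?_⟩
    constructor
    · intro h D' hD' T hT
      rw [← rubinM_notDvd D' T hp]
      rw [← rubinM_notDvd D₁ {t} hp] at h
      exact mainB D hp hz V (fun v hv _ => (hV v hv).2.2) hgen ht htV D₁ hD₁ h D' hD' T hT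
    · intro h
      refine h D₁ ?_ {t} (Finset.disjoint_singleton_right.2 htS)
      rw [hD₁]
      exact Finset.subset_union_left

end Pool.Agent.Results.MP_dd9835_nt.OnePairDecidesAll
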