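import Pool.Agent.H509.Fin

/-!
# MP_dd9835_nt: Rubin's conjecture for all `S' ⊇ S` is one of its cases

Let `H / F` be a finite abelian extension of number fields with group `G`, `S` a finite set of
places of `F` which contains the archimedean and the ramified ones, `v_1, ..., v_r` the places of
`S` which split completely, `#S ≥ r + 1` (`RubinData`); `D.Rubin T` is the statement of Q1 for
`H / F`, `S` and `T`, and `D.RubinAt p T` its part at the prime number `p` (`ψ (u) ∈ ℤ_(p)[G]` in
place of `ψ (u) ∈ ℤ[G]`). The data, and in particular the rank `r`, change with `S`: when a prime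
ideal which splits completely is added to `S`, the rank grows by one.

Fix a finite set `T` of prime ideals, disjoint from `S`.

**Theorem.** Let `V` be a finite set of prime ideals of `F` outside `S ∪ T` which split completely
in `H`, such that the prime ideals of `H` over `S ∪ V` generate the ray class group of `H` modulo
`T` (`Generates H ⊥`). Then Rubin's conjecture for `S ∪ V` (a statement in rank `r + #V`) and `T` is
equivalent to Rubin's conjecture for *all* finite sets `S' ⊇ S` disjoint from `T` (in all ranks). The
same is true for the part at a prime number `p`, and there it is enough that the prime ideals over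
`S ∪ V` generate the `p`-part of the ray class group. Sets `V` which generate the ray class group
exist.

The proof uses the contraction with the orders at the primes over `v`, `v ∈ V`, (from `S ∪ {v}` to
`S`), the exterior multiplication with elements of `H` whose order at one prime ideal is one (from
`S` to `S ∪ {v}`), and for the existence the fact that the L-functions of non-trivial ray class
characters of `H` are entire.
-/

set_option autoImplicit false

open NumberField IsDedekindDomain

noncomputable section

namespace Pool.Agent.Results.MP_dd9835_nt.OneSetOfSplitPrimes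

open Pool.Agent.K3h30.RS Pool.Agent.H509

open Classical in
/-- Rubin's conjecture for all `S' ⊇ S` is equivalent to Rubin's conjecture for `S ∪ V`, if the
elements of `V` split completely and the prime ideals over `S ∪ V` generate the ray class group of
`H` modulo `T`; and such sets `V` exist. -/
theorem result {F H G : Type} [Field F] [NumberField F] [Field H] [NumberField H] [Algebra F H]
    [CommGroup G] [Finite G] [MulSemiringAction G H] [IsGaloisGroup G F H]
    (D : RubinData F H G) (T : Finset (HeightOneSpectrum (𝓞 F))) (hT : Disjoint D.S T) :
    (∃ V : Finset (HeightOneSpectrum (𝓞 F)), SplitOutside D T V ∧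
      Generates H ⊥ ((D.S ∪ V : Finset (HeightOneSpectrum (𝓞 F))) :
        Set (HeightOneSpectrum (𝓞 F))) (T : Set (HeightOneSpectrum (𝓞 F)))) ∧
    ∀ V : Finset (HeightOneSpectrum (𝓞 F)), SplitOutside D T V →
      (∃ D₁ : RubinData F H G, D₁.S = D.S ∪ V) ∧
      ∀ D₁ : RubinData F H G, D₁.S = D.S ∪ V →
        (Generates H ⊥ ((D.S ∪ V : Finset (HeightOneSpectrum (𝓞 F))) :
            Set (HeightOneSpectrum (𝓞 F))) (T : Set (HeightOneSpectrum (𝓞 F))) →
          (D₁.Rubin T ↔
            ∀ D' : RubinData F H G, D.S ⊆ D'.S → Disjoint D'.S T → D'.Rubin T)) ∧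
        ∀ (p : ℕ) (hp : p.Prime),
          Generates H (notDvd p hp) ((D.S ∪ V : Finset (HeightOneSpectrum (𝓞 F))) :
            Set (HeightOneSpectrum (𝓞 F))) (T : Set (HeightOneSpectrum (𝓞 F))) →
          (D₁.RubinAt p T ↔
            ∀ D' : RubinData F H G, D.S ⊆ D'.S → Disjoint D'.S T → D'.RubinAt p T) := by
  refine ⟨?_, fun V hV => ⟨exists_data D V, fun D₁ hD₁ => ⟨fun hgen => ?_, fun p hp hgen => ?_⟩⟩⟩
  · obtain ⟨V, hV, hgen⟩ := exists_V' D ∅ T
    refine ⟨V, fun v hv => ⟨(hV v hv).1, (hV v hv).2.2.1, (hV v hv).2.2.2⟩, hgen.mono ?_⟩
    exact Finset.coe_subset.2 Finset.subset_union_right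
  · have h := iff_all D hT V hV hgen D₁ hD₁
    simp only [rubinM_bot] at h
    exact h
  · have h := iff_all D hT V hV hgen D₁ hD₁
    simp only [rubinM_notDvd] at h
    exact h

end Pool.Agent.Results.MP_dd9835_nt.OneSetOfSplitPrimes
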